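import Pool.Agent.Helper53.KM.NoChar

/-!
KM, block B6: a multiplicative relation between the eigenvalues of all the elements of a group with Zariski closure
containing `SL_n` is trivial.
-/

set_option autoImplicit false

open Matrix H77MT MvPolynomial

namespace Pool.Agent.Helper35.KM

open Pool.Agent.Helper53.KM

section
variable {K : Type*} [Field K] {n : Type*} [Fintype n] [DecidableEq n]

/-- a symmetric function of the eigenvalues is a polynomial in the entries -/
theorem exists_sym (F : MvPolynomial n K) (hF : F.IsSymmetric) : ∃ P : MvPolynomial (n × n) K,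
    ∀ (x : Matrix n n K) (v : n → K), x.charpoly = ∏ i, (Polynomial.X - Polynomial.C (v i)) →
      ev x P = aeval v F := by
  obtain ⟨G, hG⟩ := esymmAlgHom_surjective (σ := n) K (n := Fintype.card n) le_rfl ⟨F, hF⟩
  have hG' : F = aeval (fun i : Fin (Fintype.card n) => esymm n K (i + 1)) G := by
    rw [← esymmAlgHom_apply, hG]
  refine ⟨aeval (fun i : Fin (Fintype.card n) =>
    (-1) ^ ((i : ℕ) + 1) * (gen K n).charpoly.coeff (Fintype.card n - (i + 1))) G, fun x v hx => ?_⟩
  have h1 : ∀ i : Fin (Fintype.card n), ev x ((-1) ^ ((i : ℕ) + 1) *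
      (gen K n).charpoly.coeff (Fintype.card n - (i + 1))) = aeval v (esymm n K (i + 1)) := by
    intro i
    have h2 : ev x ((gen K n).charpoly.coeff (Fintype.card n - (i + 1))) =
        x.charpoly.coeff (Fintype.card n - (i + 1)) := by
      have h3 := Matrix.charpoly_map (gen K n) (ev x : MvPolynomial (n × n) K →+* K)
      rw [gen_map] at h3
      rw [h3, Polynomial.coeff_map]
      rfl
    have h4 : (∏ i, (Polynomial.X - Polynomial.C (v i))) =
        ((Finset.univ.val.map v).map fun t => Polynomial.X - Polynomial.C t).prod := by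
      rw [Multiset.map_map]
      rfl
    have h5 : Multiset.card (Finset.univ.val.map v) = Fintype.card n := by
      rw [Multiset.card_map]
      rfl
    have hi : (i : ℕ) + 1 ≤ Fintype.card n := i.2
    rw [map_mul, map_pow, map_neg, map_one, h2, hx, h4, Multiset.prod_X_sub_C_coeff _ (by rw [h5]; omega), h5,
      aeval_esymm_eq_multiset_esymm, show Fintype.card n - (Fintype.card n - ((i : ℕ) + 1)) = i + 1 by omega,
      ← mul_assoc, ← mul_pow, neg_one_mul, neg_neg, one_pow, one_mul]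
  rw [hG', comp_aeval_apply, comp_aeval_apply]
  congr 1
  exact congrArg _ (funext h1)

/-- the symmetric function of a relation -/
noncomputable def rel (a b : n → ℕ) : MvPolynomial n K :=
  ∏ σ : Equiv.Perm n, (∏ i, X (σ i) ^ a i - ∏ i, X (σ i) ^ b i)

theorem rel_symm (a b : n → ℕ) : (rel a b : MvPolynomial n K).IsSymmetric := by
  intro τ
  unfold rel
  rw [map_prod]
  rw [← Equiv.prod_comp (Equiv.mulLeft τ) (fun σ : Equiv.Perm n =>
    (∏ i, X (σ i) ^ a i - ∏ i, X (σ i) ^ b i : MvPolynomial n K))]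
  refine Finset.prod_congr rfl fun σ _ => ?_
  simp

theorem zpow_iff {v : n → K} (hv : ∀ i, v i ≠ 0) (m : n → ℤ) :
    ∏ i, v i ^ m i = 1 ↔ ∏ i, v i ^ (m i).toNat = ∏ i, v i ^ (-m i).toNat := by
  have h1 : ∏ i, v i ^ m i = (∏ i, v i ^ (m i).toNat) / ∏ i, v i ^ (-m i).toNat := by
    rw [← Finset.prod_div_distrib]
    refine Finset.prod_congr rfl fun i _ => ?_
    rw [← zpow_natCast, ← zpow_natCast, ← zpow_sub₀ (hv i), Int.toNat_sub_toNat_neg]
  rw [h1, div_eq_one_iff_eq]
  exact Finset.prod_ne_zero_iff.2 fun i _ => pow_ne_zero _ (hv i)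

/-- an integral vector outside finitely many hyperplanes -/
theorem exists_vec (m : n → ℤ) (hm : ∃ i j, m i ≠ m j) :
    ∃ E : n → ℤ, ∑ i, E i = 0 ∧ ∀ σ : Equiv.Perm n, ∑ i, E (σ i) * m i ≠ 0 := by
  obtain ⟨i, j, hij⟩ := hm
  let f : Equiv.Perm n → Module.Dual ℚ (n → ℚ) := fun σ => ∑ i, (m i : ℚ) • LinearMap.proj (σ i)
  have hf : ∀ σ (x : n → ℚ), f σ x = ∑ i, x (σ i) * m i := by
    intro σ x
    simp [f, mul_comm]
  let s : (n → ℚ) →ₗ[ℚ] ℚ := ∑ i, LinearMap.proj i
  have hs : ∀ x : n → ℚ, s x = ∑ i, x i := by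
    intro x
    simp [s]
  obtain ⟨x, hx, hxf⟩ := Module.Dual.exists_forall_mem_ne_zero_of_forall_exists (LinearMap.ker s) f (by
    intro σ
    refine ⟨Pi.single (σ i) 1 - Pi.single (σ j) 1, ?_, ?_⟩
    · rw [LinearMap.mem_ker, hs]
      simp
    · rw [hf]
      simp only [Pi.sub_apply, sub_mul, Finset.sum_sub_distrib]
      rw [Finset.sum_eq_single i, Finset.sum_eq_single j]
      · simp only [Pi.single_eq_same, one_mul]
        exact sub_ne_zero.2 (by exact_mod_cast hij)
      · intro k _ hk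
        rw [Pi.single_eq_of_ne (fun h => hk (σ.injective h)), zero_mul]
      · simp
      · intro k _ hk
        rw [Pi.single_eq_of_ne (fun h => hk (σ.injective h)), zero_mul]
      · simp)
  rw [LinearMap.mem_ker, hs] at hx
  set D : ℕ := ∏ i, (x i).den with hD
  have hD0 : (D : ℚ) ≠ 0 := by
    rw [hD]
    exact_mod_cast Finset.prod_ne_zero_iff.2 fun i _ => (x i).den_nz
  have hE : ∀ i, ∃ E : ℤ, (E : ℚ) = D * x i := by
    intro i
    obtain ⟨c, hc⟩ := Finset.dvd_prod_of_mem (fun i => (x i).den) (Finset.mem_univ i)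
    refine ⟨c * (x i).num, ?_⟩
    rw [hD, hc]
    push_cast
    have h1 : (x i) * (x i).den = (x i).num := Rat.mul_den_eq_num (x i)
    rw [← h1]
    ring
  choose E hE using hE
  refine ⟨E, ?_, fun σ h => hxf σ ?_⟩
  · have : ((∑ i, E i : ℤ) : ℚ) = 0 := by
      push_cast
      simp only [hE]
      rw [← Finset.mul_sum, hx, mul_zero]
    exact_mod_cast this
  · have h1 : ((∑ i, E (σ i) * m i : ℤ) : ℚ) = D * ∑ i, x (σ i) * m i := by
      push_cast
      simp only [hE]
      rw [Finset.mul_sum]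
      exact Finset.sum_congr rfl fun k _ => by ring
    rw [h, Int.cast_zero, eq_comm] at h1
    rw [hf]
    exact (mul_eq_zero.1 h1).resolve_left hD0

end

end Pool.Agent.Helper35.KM

namespace Pool.Agent.Helper79.KM

open Pool.Agent.Helper35.KM Pool.Agent.Helper53.KM

variable {K : Type} [Field K] {n : Type} [Fintype n] [DecidableEq n]
variable {Γ : Type} [Group Γ]

/-- B6: a multiplicative relation between the eigenvalues of all elements is trivial -/
theorem no_rel [CharZero K] [IsAlgClosed K] {ρ : Γ →* GL n K} {Δ : Subgroup Γ}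
    (hfull : ∀ M : Matrix n n K, M.det = 1 → M ∈ zcl {s | ∃ γ ∈ Δ, s = (ρ γ : Matrix n n K)}) (m : n → ℤ)
    (h : ∀ γ ∈ Δ, ∃ v : n → K, (ρ γ : Matrix n n K).charpoly = ∏ i, (Polynomial.X - Polynomial.C (v i)) ∧
      ∏ i, v i ^ m i = 1) : ∀ i j, m i = m j := by
  by_contra hne
  push Not at hne
  obtain ⟨E, hE, hEm⟩ := exists_vec m hne
  obtain ⟨P, hP⟩ := exists_sym (K := K) _ (rel_symm (fun i => (m i).toNat) fun i => (-m i).toNat)
  have h2 : (2 : K) ≠ 0 := two_ne_zero
  have hev : ∀ v : n → K, aeval v (rel (fun i => (m i).toNat) (fun i => (-m i).toNat) : MvPolynomial n K) =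
      ∏ σ : Equiv.Perm n, (∏ i, v (σ i) ^ (m i).toNat - ∏ i, v (σ i) ^ (-m i).toNat) := by
    intro v
    simp [rel]
  have h3 : ev (Matrix.diagonal fun i => (2 : K) ^ E i) P = 0 := by
    refine hfull _ ?_ P ?_
    · rw [Matrix.det_diagonal, prod_zp _ _ h2, hE, zpow_zero]
    · rintro _ ⟨γ, hγ, rfl⟩
      obtain ⟨v, hv, hv1⟩ := h γ hγ
      have hv0 : ∀ i, v i ≠ 0 := by
        intro i hi
        have h4 : (ρ γ : Matrix n n K).charpoly.eval 0 = 0 := by
          rw [hv, Polynomial.eval_prod]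
          exact Finset.prod_eq_zero (Finset.mem_univ i) (by simp [hi])
        rw [← Polynomial.coeff_zero_eq_eval_zero] at h4
        have h5 := Matrix.det_eq_sign_charpoly_coeff (ρ γ : Matrix n n K)
        rw [h4, mul_zero] at h5
        exact (Matrix.isUnit_iff_isUnit_det _).1 (ρ γ).isUnit |>.ne_zero h5
      rw [hP _ v hv, hev]
      exact Finset.prod_eq_zero (Finset.mem_univ 1) (sub_eq_zero.2 ((zpow_iff hv0 m).1 hv1))
  rw [hP _ (fun i => (2 : K) ^ E i) (Matrix.charpoly_diagonal _), hev, Finset.prod_eq_zero_iff] at h3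
  obtain ⟨σ, -, hσ⟩ := h3
  have h4 := (zpow_iff (v := fun i => (2 : K) ^ E (σ i)) (fun i => zpow_ne_zero _ h2) m).2 (sub_eq_zero.1 hσ)
  simp only [← _root_.zpow_mul] at h4
  rw [prod_zp _ _ h2] at h4
  exact hEm σ (zpow_two_eq h4)

end Pool.Agent.Helper79.KM
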